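import Pool.Agent.H3.ErdBor.Auto

set_option autoImplicit false

namespace Pool.Agent.Results.MP_29e051_nt.NeverAutomatic

open Pool.Agent.H3.ErdBor

/-- For no integer `k ≥ 2` is the base-`k` digit sequence of `A_k = ∑_{n ≥ 1} 1 / (k ^ n - 1)`
a `k`-automatic sequence (and the same holds for all shifts of the digit sequence; `c = 1` is the
sequence of the digits after the radix point, indexed from `0`). -/
theorem result : ∀ k : ℕ, 2 ≤ k → ∀ c : ℕ, ¬ IsAutomatic k (fun n => digit k (A k) (n + c)) :=
  fun _ hk c => not_automatic hk c

end Pool.Agent.Results.MP_29e051_nt.NeverAutomatic
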